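import Pool.Agent.V7H95.Kik.Asym

/-!
# The rescaled spectral threshold of the Kikuchi matrix tends to zero for every even `r ≥ 4`

`St n l` is the type of `l`-subsets of `Fin n`; `kik n r l c Z` is the Kikuchi matrix with entries
`c + Z (I Δ J)` if `|I Δ J| = r` and `0` otherwise (`Pool/Agent/V7H95/Kik/Walk.lean`); `lmax` is the
largest eigenvalue, as the maximum of the quadratic form over unit vectors, and `Emax n r l c` is
its expectation for independent standard Gaussians `Z S` (`Pool/Agent/V7H95/Kik/Top.lean`).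

Proof. For `r = 2k` the expected trace of `M(0)^N` is a sum over closed walks of `l`-sets with a
pairing of the steps into equal hyperedges. Reading a walk in the order of time, the set `O` of the
hyperedges which are open determines the current `l`-set. Give `O` the weight
`a^|O| y^(l + k|O| - v(O))`, where `v(O)` is the number of vertices of `O` and of the start. A
closing step either removes a hyperedge with `k` private occupied vertices (at most `l/k` choices),
or decreases the exponent of `y`; an opening step which hits `c` old vertices increases the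
exponent by `c` but has only `O(n^(k-c))` choices. Hence, for `N` of order `(log n)^2`,
`E λmax M(0) ≤ (2 + o(1)) (C(l,k) (l/k) n^k / k!)^(1/2)`, without a logarithm, while the signal
gives `E λmax M(μ n^(-k/2)) ≥ μ C(l,k) n^(k/2) / k! (1 - o(1))`.
-/

set_option autoImplicit false

open Filter Topology Pool.Agent.V7H95.Kik
open scoped ENNReal

namespace Pool.Agent.Results.MP_d47e08_pr.KikuchiThresholdH95

/-- `ρ_{r,l}(μ)`, the lower limit of `E λmax M(μ n^(-r/4)) / E λmax M(0)` -/
noncomputable def rho (r l : ℕ) (μ : ℝ) : EReal :=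
  liminf (fun n : ℕ => ((Emax n r l (μ * (n : ℝ) ^ (-(r : ℝ) / 4)) / Emax n r l 0 : ℝ) : EReal)) atTop

/-- the rescaled spectral threshold, the infimum of all `μ ≥ 0` with `ρ_{r,l}(μ) > 1` -/
noncomputable def thr (r l : ℕ) : ℝ≥0∞ :=
  sInf {x | ∃ μ : ℝ, 0 ≤ μ ∧ 1 < rho r l μ ∧ x = ENNReal.ofReal μ}

theorem rho_gt {k l : ℕ} (hk : 1 ≤ k) (hkl : k ≤ l) {μ : ℝ} (hμ : mu0 k l < μ) :
    1 < rho (2 * k) l μ := by
  obtain ⟨ε, hε, h⟩ := ratio_gt hk hkl hμ
  have h1 : ((1 + ε : ℝ) : EReal) ≤ rho (2 * k) l μ := by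
    unfold rho
    refine le_liminf_of_le (h := ?_)
    filter_upwards [h] with n hn
    exact_mod_cast hn
  refine lt_of_lt_of_le ?_ h1
  have : (1 : EReal) = ((1 : ℝ) : EReal) := rfl
  rw [this, EReal.coe_lt_coe_iff]
  linarith

theorem mu0_nonneg (k l : ℕ) : 0 ≤ mu0 k l := by unfold mu0; positivity

theorem thr_le {k l : ℕ} (hk : 1 ≤ k) (hkl : k ≤ l) :
    thr (2 * k) l ≤ ENNReal.ofReal (mu0 k l) := by
  have h1 : ∀ δ : ℝ, 0 < δ → thr (2 * k) l ≤ ENNReal.ofReal (mu0 k l + δ) := by
    intro δ hδ
    apply sInf_le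
    exact ⟨mu0 k l + δ, by linarith [mu0_nonneg k l], rho_gt hk hkl (by linarith), rfl⟩
  have h2 : Tendsto (fun δ : ℝ => ENNReal.ofReal (mu0 k l + δ)) (𝓝[>] 0)
      (𝓝 (ENNReal.ofReal (mu0 k l))) := by
    have h3 : Continuous (fun δ : ℝ => ENNReal.ofReal (mu0 k l + δ)) :=
      ENNReal.continuous_ofReal.comp (continuous_const.add continuous_id)
    have h4 := h3.tendsto 0
    rw [add_zero] at h4
    exact h4.mono_left nhdsWithin_le_nhds
  refine ge_of_tendsto h2 ?_
  filter_upwards [self_mem_nhdsWithin] with δ hδ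
  exact h1 δ hδ

/-- For every even `r = 2k ≥ 2` and `l ≥ k` the rescaled spectral threshold is at most
`2 (l k! / (k C(l,k)))^(1/2)`, and it tends to zero as `l → ∞` for every even `r ≥ 4`. -/
theorem result :
    (∀ k l : ℕ, 1 ≤ k → k ≤ l →
      thr (2 * k) l ≤ ENNReal.ofReal (2 * √((l * k.factorial : ℝ) / (k * l.choose k)))) ∧
    (∀ r : ℕ, 4 ≤ r → Even r → Tendsto (fun l : ℕ => thr r l) atTop (𝓝 0)) := by
  refine ⟨fun k l hk hkl => thr_le hk hkl, ?_⟩
  rintro r hr ⟨k, hk⟩
  obtain rfl : r = 2 * k := by omega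
  have h1 := (ENNReal.continuous_ofReal.tendsto 0).comp (mu0_tendsto (k := k) (by omega))
  rw [ENNReal.ofReal_zero] at h1
  refine tendsto_of_tendsto_of_tendsto_of_le_of_le' tendsto_const_nhds h1
    (Eventually.of_forall fun l => bot_le) ?_
  filter_upwards [eventually_ge_atTop k] with l hl
  exact thr_le (by omega) hl

end Pool.Agent.Results.MP_d47e08_pr.KikuchiThresholdH95
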